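import Pool.Agent.Helper43.EV.Goals2
import Pool.Agent.Helper3.QGr.Count

/-!
# EV-CNTR: the number of pairs of subspaces, sharp form
-/

set_option autoImplicit false

namespace Pool.Agent.Helper58.EV.CNTR

open Module Pool.Agent.Helper3.QGr Pool.Agent.Helper43.EV

theorem t : Pool.Agent.Helper43.EV.CNTR := by
  intro F _ _ V _ _ _ a b hab hba hb
  classical
  have hV : Finite V := Module.finite_of_finite F
  set c : ℝ := 1 - 1 / (Fintype.card F : ℝ) - 1 / (Fintype.card F : ℝ) ^ 2 with hc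
  have hq2 : (2 : ℝ) ≤ Fintype.card F := by exact_mod_cast Fintype.one_lt_card
  have hc0 : 0 ≤ c := by
    have h1 : 1 / (Fintype.card F : ℝ) ≤ 1 / 2 := one_div_le_one_div_of_le (by norm_num) hq2
    have h2 : 1 / (Fintype.card F : ℝ) ^ 2 ≤ 1 / 4 := by
      have : (4 : ℝ) ≤ (Fintype.card F : ℝ) ^ 2 := by nlinarith
      exact one_div_le_one_div_of_le (by norm_num) this
    rw [hc]; linarith
  have hB := card_bound (F := F) (V := V) b (finrank F V) hb rfl
  rw [← hc] at hB
  rcases Nat.lt_or_ge a b with hlt | hge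
  · -- `b = a + 1`
    have hb1 : b - a = 1 := by omega
    let φ : Fl F V a b → Σ B : Gr F V b, Gr F B.1 a := fun X =>
      ⟨⟨X.1.2, X.2.2.2⟩, ⟨X.1.1.comap X.1.2.subtype, by
        have h := (Submodule.comapSubtypeEquivOfLe X.2.1).finrank_eq
        rw [h]
        exact X.2.2.1⟩⟩
    let ψ : (Σ B : Gr F V b, Gr F B.1 a) → Submodule F V × Submodule F V :=
      fun s => (s.2.1.map s.1.1.subtype, s.1.1)
    have hψ : ∀ X : Fl F V a b, ψ (φ X) = X.1 := by
      intro X
      apply Prod.ext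
      · show Submodule.map X.1.2.subtype (Submodule.comap X.1.2.subtype X.1.1) = X.1.1
        rw [Submodule.map_comap_subtype]
        exact inf_eq_right.2 X.2.1
      · rfl
    have hφ : Function.Injective φ := by
      intro X Y h
      apply Subtype.ext
      rw [← hψ X, ← hψ Y, h]
    have hfin : ∀ B : Gr F V b, Finite (Gr F B.1 a) := fun B => by
      have : Finite (Submodule F B.1) := inferInstance
      infer_instance
    have h1 : Nat.card (Fl F V a b) ≤ Nat.card (Σ B : Gr F V b, Gr F B.1 a) :=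
      Nat.card_le_card_of_injective φ hφ
    rw [Nat.card_sigma] at h1
    have h1' : (Nat.card (Fl F V a b) : ℝ) ≤ ∑ B : Gr F V b, (Nat.card (Gr F B.1 a) : ℝ) := by
      exact_mod_cast h1
    have h2 : ∀ B ∈ (Finset.univ : Finset (Gr F V b)),
        c * (Nat.card (Gr F B.1 a) : ℝ) ≤ (Fintype.card F : ℝ) ^ (a * (b - a)) :=
      fun B _ => card_bound (F := F) (V := B.1) a b hab B.2
    have h3 : c * (Nat.card (Fl F V a b) : ℝ) ≤
        (Nat.card (Gr F V b) : ℝ) * (Fintype.card F : ℝ) ^ (a * (b - a)) := by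
      calc c * (Nat.card (Fl F V a b) : ℝ)
          ≤ c * ∑ B : Gr F V b, (Nat.card (Gr F B.1 a) : ℝ) :=
            mul_le_mul_of_nonneg_left h1' hc0
        _ = ∑ B : Gr F V b, c * (Nat.card (Gr F B.1 a) : ℝ) := Finset.mul_sum _ _ _
        _ ≤ ∑ _B : Gr F V b, (Fintype.card F : ℝ) ^ (a * (b - a)) := Finset.sum_le_sum h2
        _ = (Nat.card (Gr F V b) : ℝ) * (Fintype.card F : ℝ) ^ (a * (b - a)) := by
            rw [Finset.sum_const, Finset.card_univ, nsmul_eq_mul, Nat.card_eq_fintype_card]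
    have hq0 : (0 : ℝ) ≤ (Fintype.card F : ℝ) ^ (a * (b - a)) := by positivity
    calc c ^ (b - a + 1) * (Nat.card (Fl F V a b) : ℝ)
        = c * (c * (Nat.card (Fl F V a b) : ℝ)) := by rw [hb1]; ring
      _ ≤ c * ((Nat.card (Gr F V b) : ℝ) * (Fintype.card F : ℝ) ^ (a * (b - a))) :=
          mul_le_mul_of_nonneg_left h3 hc0
      _ = (c * (Nat.card (Gr F V b) : ℝ)) * (Fintype.card F : ℝ) ^ (a * (b - a)) := by ring
      _ ≤ (Fintype.card F : ℝ) ^ (b * (finrank F V - b)) *
            (Fintype.card F : ℝ) ^ (a * (b - a)) := mul_le_mul_of_nonneg_right hB hq0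
      _ = (Fintype.card F : ℝ) ^ (b * (finrank F V - b) + a * (b - a)) := by rw [pow_add]
  · -- `a = b`
    have hbb : a = b := le_antisymm hab hge
    subst hbb
    have hinj : Function.Injective (fun X : Fl F V a a => (⟨X.1.2, X.2.2.2⟩ : Gr F V a)) := by
      intro X Y h
      have h2 : X.1.2 = Y.1.2 := congrArg Subtype.val h
      have hX : X.1.1 = X.1.2 := Submodule.eq_of_le_of_finrank_eq X.2.1 (by
        rw [X.2.2.1, X.2.2.2])
      have hY : Y.1.1 = Y.1.2 := Submodule.eq_of_le_of_finrank_eq Y.2.1 (by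
        rw [Y.2.2.1, Y.2.2.2])
      apply Subtype.ext
      apply Prod.ext
      · rw [hX, hY, h2]
      · exact h2
    have h1 : Nat.card (Fl F V a a) ≤ Nat.card (Gr F V a) :=
      Nat.card_le_card_of_injective _ hinj
    have h1' : (Nat.card (Fl F V a a) : ℝ) ≤ (Nat.card (Gr F V a) : ℝ) := by exact_mod_cast h1
    rw [Nat.sub_self, Nat.mul_zero, Nat.add_zero, pow_one]
    exact (mul_le_mul_of_nonneg_left h1' hc0).trans hB

end Pool.Agent.Helper58.EV.CNTR
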