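import Pool.Agent.Helper43.EV.Goals
import Pool.Agent.Helper3.QGr.Count

/-!
# EV-CNT: the number of pairs of subspaces
-/

set_option autoImplicit false

namespace Pool.Agent.Helper58.EV.CNT

open Module Pool.Agent.Helper3.QGr Pool.Agent.Helper43.EV

theorem four (F : Type) [Field F] [Fintype F] (V : Type) [AddCommGroup V] [Module F V]
    [FiniteDimensional F V] (k m : ℕ) (hk : k ≤ m) (hm : finrank F V = m) :
    Nat.card (Gr F V k) ≤ 4 * Fintype.card F ^ (k * (m - k)) := by
  have h := card_bound (F := F) (V := V) k m hk hm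
  have hq2 : (2 : ℝ) ≤ Fintype.card F := by exact_mod_cast Fintype.one_lt_card
  have h1 : 1 / (Fintype.card F : ℝ) ≤ 1 / 2 := one_div_le_one_div_of_le (by norm_num) hq2
  have h2 : 1 / (Fintype.card F : ℝ) ^ 2 ≤ 1 / 4 := by
    have : (4 : ℝ) ≤ (Fintype.card F : ℝ) ^ 2 := by nlinarith
    exact one_div_le_one_div_of_le (by norm_num) this
  have h3 : (0 : ℝ) ≤ Nat.card (Gr F V k) := Nat.cast_nonneg _
  have h4 : (1 / 4 : ℝ) * Nat.card (Gr F V k) ≤ (Fintype.card F : ℝ) ^ (k * (m - k)) := by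
    refine le_trans ?_ h
    apply mul_le_mul_of_nonneg_right _ h3
    linarith
  have h5 : (Nat.card (Gr F V k) : ℝ) ≤ 4 * (Fintype.card F : ℝ) ^ (k * (m - k)) := by linarith
  exact_mod_cast h5

theorem t : Pool.Agent.Helper43.EV.CNT := by
  intro F _ _ V _ _ _ a b hab _ hb
  classical
  let φ : Fl F V a b → Σ B : Gr F V b, Gr F B.1 a := fun X =>
    ⟨⟨X.1.2, X.2.2.2⟩, ⟨X.1.1.comap X.1.2.subtype, by
      have h := (Submodule.comapSubtypeEquivOfLe X.2.1).finrank_eq
      rw [h]
      exact X.2.2.1⟩⟩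
  let ψ : (Σ B : Gr F V b, Gr F B.1 a) → Submodule F V × Submodule F V :=
    fun s => (s.2.1.map s.1.1.subtype, s.1.1)
  have hψ : ∀ X : Fl F V a b, ψ (φ X) = X.1 := by
    intro X
    apply Prod.ext
    · show Submodule.map X.1.2.subtype (Submodule.comap X.1.2.subtype X.1.1) = X.1.1
      rw [Submodule.map_comap_subtype]
      exact inf_eq_right.2 X.2.1
    · rfl
  have hφ : Function.Injective φ := by
    intro X Y h
    apply Subtype.ext
    rw [← hψ X, ← hψ Y, h]
  have hV : Finite V := Module.finite_of_finite F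
  have hfin : ∀ B : Gr F V b, Finite (Gr F B.1 a) := fun B => by
    have : Finite (Submodule F B.1) := inferInstance
    infer_instance
  have h1 : Nat.card (Fl F V a b) ≤ Nat.card (Σ B : Gr F V b, Gr F B.1 a) :=
    Nat.card_le_card_of_injective φ hφ
  refine h1.trans ?_
  rw [Nat.card_sigma]
  have h2 : ∀ B ∈ (Finset.univ : Finset (Gr F V b)),
      Nat.card (Gr F B.1 a) ≤ 4 * Fintype.card F ^ (a * (b - a)) :=
    fun B _ => four F B.1 a b hab B.2
  refine (Finset.sum_le_sum h2).trans ?_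
  rw [Finset.sum_const, Finset.card_univ, smul_eq_mul, ← Nat.card_eq_fintype_card]
  have h3 := four F V b (finrank F V) hb rfl
  calc Nat.card (Gr F V b) * (4 * Fintype.card F ^ (a * (b - a)))
      ≤ (4 * Fintype.card F ^ (b * (finrank F V - b))) * (4 * Fintype.card F ^ (a * (b - a))) :=
        Nat.mul_le_mul_right _ h3
    _ = 16 * Fintype.card F ^ (b * (finrank F V - b) + a * (b - a)) := by
        rw [pow_add]; ring

end Pool.Agent.Helper58.EV.CNT
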